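import Mathlib

/-!
# Primitive groups with a finitary element

An infinite primitive permutation group which contains a regular subgroup and a non-identity
permutation with finite support is doubly transitive.
-/

set_option autoImplicit false

open scoped Pointwise

namespace Pool.Agent.BG

variable {V : Type*}

/-- No non-trivial invariant equivalence relation. -/
def IsPrim (G : Subgroup (Equiv.Perm V)) : Prop :=
  ∀ r : V → V → Prop, Equivalence r → (∀ g ∈ G, ∀ x y, r x y → r (g x) (g y)) →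
    (∀ x y, r x y → x = y) ∨ (∀ x y, r x y)

theorem isPrim_of_isPreprimitive (G : Subgroup (Equiv.Perm V))
    (h : MulAction.IsPreprimitive G V) : IsPrim G := by
  intro r hr hinv
  by_cases ht : ∀ x y, r x y → x = y
  · left; exact ht
  · right
    push Not at ht
    obtain ⟨a, b, hab, hne⟩ := ht
    have hB : MulAction.IsBlock G {y | r a y} := by
      rw [MulAction.isBlock_iff_smul_eq_of_mem]
      intro g y hy hgy
      have h1 : r a (g.1 a) := by
        have h2 : r (g.1 a) (g.1 y) := hinv g.1 g.2 _ _ hy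
        exact hr.trans hgy (hr.symm h2)
      ext z
      rw [Set.mem_smul_set_iff_inv_smul_mem]
      constructor
      · intro hz
        have h2 := hinv g.1 g.2 _ _ (show r a (g⁻¹ • z) from hz)
        have h3 : g.1 (g⁻¹ • z) = z := by
          change g • (g⁻¹ • z) = z
          simp
        rw [h3] at h2
        exact hr.trans h1 h2
      · intro hz
        have h2 : r (g.1 a) z := hr.trans (hr.symm h1) hz
        have h3 := hinv g⁻¹.1 g⁻¹.2 _ _ h2
        have h4 : g⁻¹.1 (g.1 a) = a := by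
          change g⁻¹ • (g • a) = a
          simp
        rw [h4] at h3
        exact h3
    rcases h.isTrivialBlock_of_isBlock hB with h1 | h1
    · exact absurd (h1 (hr.refl a) hab) hne
    · intro x y
      obtain ⟨g, hg⟩ := h.exists_smul_eq a x
      have h2 : r a (g⁻¹ • y) := by
        have : (g⁻¹ • y) ∈ {y | r a y} := by rw [h1]; trivial
        exact this
      have h3 := hinv g.1 g.2 _ _ h2
      have h4 : g.1 (g⁻¹ • y) = y := by
        change g • (g⁻¹ • y) = y
        simp
      rw [h4] at h3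
      have h5 : g.1 a = x := hg
      rwa [h5] at h3

/-! ### Finite suborbits -/

section finite

variable {G X : Subgroup (Equiv.Perm V)}

/-- The symmetric orbital graph. -/
def orbGraph (G : Subgroup (Equiv.Perm V)) (a b : V) : SimpleGraph V where
  Adj x y := x ≠ y ∧ ∃ g ∈ G, (g a = x ∧ g b = y) ∨ (g a = y ∧ g b = x)
  symm := ⟨by
    rintro x y ⟨h, g, hg, h1 | h1⟩
    · exact ⟨h.symm, g, hg, Or.inr h1⟩
    · exact ⟨h.symm, g, hg, Or.inl h1⟩⟩
  loopless := ⟨fun x h => h.1 rfl⟩

theorem orbGraph_adj_smul {a b : V} {g : Equiv.Perm V} (hg : g ∈ G) {x y : V}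
    (h : (orbGraph G a b).Adj x y) : (orbGraph G a b).Adj (g x) (g y) := by
  obtain ⟨h1, k, hk, h2 | h2⟩ := h
  · exact ⟨fun e => h1 (g.injective e), g * k, mul_mem hg hk, Or.inl
      ⟨by rw [Equiv.Perm.mul_apply, h2.1], by rw [Equiv.Perm.mul_apply, h2.2]⟩⟩
  · exact ⟨fun e => h1 (g.injective e), g * k, mul_mem hg hk, Or.inr
      ⟨by rw [Equiv.Perm.mul_apply, h2.1], by rw [Equiv.Perm.mul_apply, h2.2]⟩⟩

/-- The automorphism of the orbital graph. -/
def orbIso (a b : V) (g : Equiv.Perm V) (hg : g ∈ G) :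
    orbGraph G a b ≃g orbGraph G a b where
  toEquiv := g
  map_rel_iff' := by
    intro x y
    constructor
    · intro h
      have h1 := orbGraph_adj_smul (inv_mem hg) h
      simpa using h1
    · intro h
      exact orbGraph_adj_smul hg h

theorem orbGraph_dist_le {a b : V} (hc : (orbGraph G a b).Connected) {g : Equiv.Perm V}
    (hg : g ∈ G) (x y : V) :
    (orbGraph G a b).dist (g x) (g y) ≤ (orbGraph G a b).dist x y := by
  obtain ⟨p, hp⟩ := hc.exists_walk_length_eq_dist x y
  rw [← hp, ← SimpleGraph.Walk.length_map (orbIso a b g hg).toHom p]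
  exact SimpleGraph.dist_le _

theorem orbGraph_dist {a b : V} (hc : (orbGraph G a b).Connected) {g : Equiv.Perm V}
    (hg : g ∈ G) (x y : V) :
    (orbGraph G a b).dist (g x) (g y) = (orbGraph G a b).dist x y := by
  apply le_antisymm (orbGraph_dist_le hc hg x y)
  have h := orbGraph_dist_le hc (inv_mem hg) (g x) (g y)
  simpa using h

theorem orbGraph_connected [Nonempty V] (hprim : IsPrim G) {a b : V} (hab : a ≠ b) :
    (orbGraph G a b).Connected := by
  rcases hprim (fun x y => (orbGraph G a b).Reachable x y)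
    ⟨fun x => SimpleGraph.Reachable.refl x, fun h => h.symm, fun h1 h2 => h1.trans h2⟩
    (fun g hg x y h => by
      obtain ⟨p⟩ := h
      exact ⟨p.map (orbIso a b g hg).toHom⟩) with h | h
  · exfalso
    have h1 : (orbGraph G a b).Adj a b := ⟨hab, 1, one_mem _, Or.inl ⟨rfl, rfl⟩⟩
    exact hab (h a b h1.reachable)
  · exact ⟨h⟩

/-- A finite suborbit is impossible in the presence of a finitary element. -/
theorem no_finite_suborbit [Infinite V] (hprim : IsPrim G) (hX : X ≤ G)
    (hreg : ∀ x y : V, ∃! g : X, (g : Equiv.Perm V) x = y)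
    {t : Equiv.Perm V} (ht : t ∈ G) (h1 : t ≠ 1) (hfin : {x | t x ≠ x}.Finite)
    (a b : V) (hab : a ≠ b) : {y | ∃ g ∈ G, g a = a ∧ g b = y}.Infinite := by
  intro hF
  have hc := orbGraph_connected (G := G) hprim hab
  -- the neighbours of `a`
  have hN : {y | (orbGraph G a b).Adj a y}.Finite := by
    -- the second kind of neighbours
    have hsec : {y | ∃ g ∈ G, g a = y ∧ g b = a}.Finite := by
      choose! k hk1 hk2 using fun x y => hreg x y
      refine (hF.image (fun z => (k z a : Equiv.Perm V) a)).subset ?_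
      rintro y ⟨g, hg, h2, h3⟩
      obtain ⟨x, hx1, hx2⟩ := hreg a y
      refine ⟨(x : Equiv.Perm V)⁻¹ (g b), ⟨(x : Equiv.Perm V)⁻¹ * g,
        mul_mem (inv_mem (hX x.2)) hg, ?_, rfl⟩, ?_⟩
      · rw [Equiv.Perm.mul_apply, h2, ← hx1]; simp
      · have h4 : k ((x : Equiv.Perm V)⁻¹ (g b)) a = x := by
          symm
          apply hk2
          rw [← h3]
          simp
        change (k ((x : Equiv.Perm V)⁻¹ (g b)) a : Equiv.Perm V) a = y
        rw [h4]
        exact hx1
    refine (hF.union hsec).subset ?_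
    rintro y ⟨-, g, hg, h2 | h2⟩
    · exact Or.inl ⟨g, hg, h2.1, h2.2⟩
    · exact Or.inr ⟨g, hg, h2.1, h2.2⟩
  -- some neighbour has infinitely many differences
  obtain ⟨y, -, hy⟩ : ∃ y ∈ {y | (orbGraph G a b).Adj a y},
      {v | (orbGraph G a b).dist a v ≠ (orbGraph G a b).dist y v}.Infinite := by
    by_contra hcon
    push Not at hcon
    have h2 : (⋃ y ∈ {y | (orbGraph G a b).Adj a y},
        {v | (orbGraph G a b).dist a v ≠ (orbGraph G a b).dist y v}).Finite :=
      hN.biUnion (fun y hy => hcon y hy)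
    have h3 : (Set.univ : Set V) ⊆ {a} ∪ (⋃ y ∈ {y | (orbGraph G a b).Adj a y},
        {v | (orbGraph G a b).dist a v ≠ (orbGraph G a b).dist y v}) := by
      intro v _
      by_cases hv : v = a
      · exact Or.inl hv
      · right
        obtain ⟨p, hp⟩ := hc.exists_walk_length_eq_dist a v
        cases p with
        | nil => exact absurd rfl hv
        | @cons _ w _ hadj q =>
          refine Set.mem_biUnion (show w ∈ {y | (orbGraph G a b).Adj a y} from hadj) ?_
          change (orbGraph G a b).dist a v ≠ (orbGraph G a b).dist w v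
          have h4 := SimpleGraph.dist_le q
          rw [SimpleGraph.Walk.length_cons] at hp
          omega
    exact Set.infinite_univ ((Set.finite_singleton a).union h2 |>.subset h3)
  -- the relation
  rcases hprim (fun x y => {v | (orbGraph G a b).dist x v ≠ (orbGraph G a b).dist y v}.Finite)
    ⟨fun x => by simp, fun {x y} h => h.subset (fun v hv => Ne.symm hv), fun {x y z} h2 h3 => by
      refine (h2.union h3).subset (fun v hv => ?_)
      by_contra hcon
      simp only [Set.mem_union, Set.mem_ofPred_eq, not_or, not_not] at hcon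
      exact hv (hcon.1.trans hcon.2)⟩
    (fun g hg x y h => by
      refine (h.image g).subset ?_
      intro v hv
      refine ⟨g⁻¹ v, ?_, by simp⟩
      change (orbGraph G a b).dist x (g⁻¹ v) ≠ (orbGraph G a b).dist y (g⁻¹ v)
      rw [← orbGraph_dist hc hg x, ← orbGraph_dist hc hg y]
      simpa using hv) with h | h
  · apply h1
    ext x
    refine (h x (t x) ?_).symm
    refine hfin.subset ?_
    intro v hv
    by_contra hcon
    apply hv
    have h2 : t v = v := by simpa using hcon
    have h3 := orbGraph_dist hc ht x v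
    rw [h2] at h3
    exact h3.symm
  · exact hy (h a y)

/-- B. H. Neumann: separation of finite sets in the point stabiliser. -/
theorem exists_separating (a : V) (D : Finset V) (haD : a ∉ D)
    (hinf : ∀ b ≠ a, {y | ∃ g ∈ G, g a = a ∧ g b = y}.Infinite) :
    ∃ h ∈ G, h a = a ∧ ∀ x ∈ D, h x ∉ D := by
  classical
  by_contra hcon
  push Not at hcon
  let S : Subgroup G := MulAction.stabilizer G a
  -- the finitely many cosets
  have hcov : ∀ h : S, ∃ x ∈ D, (h.1.1 : Equiv.Perm V) x ∈ D := fun h => hcon h.1.1 h.1.2 h.2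
  let s : Finset (V × V) := (D ×ˢ D).filter
    (fun q => ∃ h : S, (h.1.1 : Equiv.Perm V) q.1 = q.2)
  let gg : V × V → S := fun q => if hq : ∃ h : S, (h.1.1 : Equiv.Perm V) q.1 = q.2 then
    hq.choose else 1
  let HH : V × V → Subgroup S := fun q => MulAction.stabilizer S q.1
  have hcovers : ⋃ q ∈ s, gg q • (HH q : Set S) = Set.univ := by
    rw [Set.eq_univ_iff_forall]
    intro h
    obtain ⟨x, hx, hx'⟩ := hcov h
    have hq : ∃ h' : S, (h'.1.1 : Equiv.Perm V) (x, (h.1.1 : Equiv.Perm V) x).1 =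
      (x, (h.1.1 : Equiv.Perm V) x).2 := ⟨h, rfl⟩
    have hmem : (x, (h.1.1 : Equiv.Perm V) x) ∈ s := by
      refine Finset.mem_filter.mpr ⟨Finset.mem_product.mpr ⟨hx, hx'⟩, hq⟩
    refine Set.mem_biUnion hmem ?_
    rw [Set.mem_smul_set_iff_inv_smul_mem]
    change (gg (x, (h.1.1 : Equiv.Perm V) x))⁻¹ * h ∈ MulAction.stabilizer S x
    rw [MulAction.mem_stabilizer_iff, mul_smul, inv_smul_eq_iff]
    have h2 : gg (x, (h.1.1 : Equiv.Perm V) x) = hq.choose := dif_pos hq
    rw [h2]
    exact hq.choose_spec.symm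
  obtain ⟨q, hq, hfi⟩ := Subgroup.exists_finiteIndex_of_leftCoset_cover hcovers
  have hq1 : q.1 ∈ D := (Finset.mem_product.mp (Finset.mem_filter.mp hq).1).1
  have hqa : q.1 ≠ a := fun e => haD (e ▸ hq1)
  apply hinf q.1 hqa
  have h3 : (MulAction.orbit S q.1).Finite := by
    have h4 := hfi.index_ne_zero
    change (MulAction.stabilizer S q.1).index ≠ 0 at h4
    rw [MulAction.index_stabilizer] at h4
    exact Set.finite_of_ncard_ne_zero h4
  refine h3.subset ?_
  rintro y ⟨g, hg, hga, hgy⟩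
  exact ⟨⟨⟨g, hg⟩, hga⟩, hgy⟩

end finite

/-! ### Cycles of length three -/

theorem app_inv (g : Equiv.Perm V) (v : V) : g (g⁻¹ v) = v := by simp

theorem inv_app (g : Equiv.Perm V) (v : V) : g⁻¹ (g v) = v := by simp

section cycles

open Classical in
/-- The cycle `x -> y -> z -> x`. -/
noncomputable def cyc (x y z : V) : Equiv.Perm V := Equiv.swap x y * Equiv.swap y z

variable {x y z : V}

theorem cyc_one (h2 : y ≠ z) (h3 : x ≠ z) : cyc x y z y = z := by
  classical
  unfold cyc
  rw [Equiv.Perm.mul_apply, Equiv.swap_apply_left, Equiv.swap_apply_of_ne_of_ne h3.symm h2.symm]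

theorem cyc_two : cyc x y z z = x := by
  classical
  unfold cyc
  rw [Equiv.Perm.mul_apply, Equiv.swap_apply_right, Equiv.swap_apply_right]

theorem cyc_zero (h1 : x ≠ y) (h3 : x ≠ z) : cyc x y z x = y := by
  classical
  unfold cyc
  rw [Equiv.Perm.mul_apply, Equiv.swap_apply_of_ne_of_ne h1 h3, Equiv.swap_apply_left]

theorem cyc_other {v : V} (h1 : v ≠ x) (h2 : v ≠ y) (h3 : v ≠ z) : cyc x y z v = v := by
  classical
  unfold cyc
  rw [Equiv.Perm.mul_apply, Equiv.swap_apply_of_ne_of_ne h2 h3,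
    Equiv.swap_apply_of_ne_of_ne h1 h2]

theorem cyc_ext (h1 : x ≠ y) (h2 : y ≠ z) (h3 : x ≠ z) {s : Equiv.Perm V} (e1 : s x = y)
    (e2 : s y = z) (e3 : s z = x) (e4 : ∀ v, v ≠ x → v ≠ y → v ≠ z → s v = v) :
    s = cyc x y z := by
  ext v
  by_cases a1 : v = x
  · rw [a1, e1, cyc_zero h1 h3]
  by_cases a2 : v = y
  · rw [a2, e2, cyc_one h2 h3]
  by_cases a3 : v = z
  · rw [a3, e3, cyc_two]
  rw [e4 v a1 a2 a3, cyc_other a1 a2 a3]

theorem cyc_rot (h1 : x ≠ y) (h2 : y ≠ z) (h3 : x ≠ z) : cyc x y z = cyc y z x :=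
  cyc_ext h2 h3.symm h1.symm (cyc_one h2 h3) cyc_two (cyc_zero h1 h3)
    (fun _ a b c => cyc_other c a b)

theorem cyc_inv : (cyc x y z)⁻¹ = cyc z y x := by
  classical
  unfold cyc
  rw [mul_inv_rev, Equiv.swap_inv, Equiv.swap_inv, Equiv.swap_comm y z, Equiv.swap_comm x y]

theorem cyc_conj (g : Equiv.Perm V) : g * cyc x y z * g⁻¹ = cyc (g x) (g y) (g z) := by
  classical
  unfold cyc
  rw [Equiv.swap_apply_apply, Equiv.swap_apply_apply]
  group

variable {G X : Subgroup (Equiv.Perm V)}

theorem cyc_conj_mem {g : Equiv.Perm V} (hg : g ∈ G) (h : cyc x y z ∈ G) {x' y' z' : V}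
    (hx : g x = x') (hy : g y = y') (hz : g z = z') : cyc x' y' z' ∈ G := by
  rw [← hx, ← hy, ← hz, ← cyc_conj]
  exact mul_mem (mul_mem hg h) (inv_mem hg)

theorem cyc_inv_mem (h : cyc x y z ∈ G) : cyc z y x ∈ G := by
  rw [← cyc_inv]; exact inv_mem h

/-- Two elements whose supports meet in one point give a cycle of length three. -/
theorem exists_cyc {a : V} {t u : Equiv.Perm V} (ht : t ∈ G) (hu : u ∈ G) (hta : t a ≠ a)
    (hua : u a ≠ a) (hd : ∀ v, v ≠ a → t v ≠ v → u v = v) :
    a ≠ t a ∧ t a ≠ u a ∧ a ≠ u a ∧ cyc a (t a) (u a) ∈ G := by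
  have hd' : ∀ v, v ≠ a → u v ≠ v → t v = v := fun v h1 h2 => by
    by_contra h3
    exact h2 (hd v h1 h3)
  have htt : ∀ v, t v ≠ v → t (t v) ≠ t v := fun v h1 h2 => h1 (t.injective h2)
  have huu : ∀ v, u v ≠ v → u (u v) ≠ u v := fun v h1 h2 => h1 (u.injective h2)
  have hti : ∀ v, t v ≠ v → t (t⁻¹ v) ≠ t⁻¹ v := fun v h1 h2 => by
    simp only [app_inv] at h2
    apply h1
    conv_lhs => rw [h2]
    simp
  have hui : ∀ v, u v ≠ v → u (u⁻¹ v) ≠ u⁻¹ v := fun v h1 h2 => by
    simp only [app_inv] at h2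
    apply h1
    conv_lhs => rw [h2]
    simp
  have hne : t a ≠ u a := by
    intro e
    have h1 := hd (t a) hta (htt a hta)
    have h2 := huu a hua
    rw [← e] at h2
    exact h2 h1
  have hinvfix : ∀ (w : Equiv.Perm V) (v : V), w v = v → w⁻¹ v = v := fun w v h => by
    conv_lhs => rw [← h]
    simp
  refine ⟨hta.symm, hne, hua.symm, ?_⟩
  have hmem : t * u * t⁻¹ * u⁻¹ ∈ G :=
    mul_mem (mul_mem (mul_mem ht hu) (inv_mem ht)) (inv_mem hu)
  have key : t * u * t⁻¹ * u⁻¹ = cyc a (t a) (u a) := by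
    apply cyc_ext hta.symm hne hua.symm
    · -- a
      simp only [Equiv.Perm.mul_apply]
      have h1 : u⁻¹ a ≠ a := fun e => hua (by conv_lhs => rw [← e]; simp)
      have h2 : t (u⁻¹ a) = u⁻¹ a := hd' _ h1 (hui a hua)
      rw [hinvfix t _ h2, app_inv]
    · -- t a
      simp only [Equiv.Perm.mul_apply]
      have h1 : u (t a) = t a := hd _ hta (htt a hta)
      rw [hinvfix u _ h1, inv_app]
      exact hd' _ hua (huu a hua)
    · -- u a
      simp only [Equiv.Perm.mul_apply]
      rw [inv_app]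
      have h1 : t⁻¹ a ≠ a := fun e => hta (by conv_lhs => rw [← e]; simp)
      have h2 : u (t⁻¹ a) = t⁻¹ a := hd _ h1 (hti a hta)
      rw [h2, app_inv]
    · intro v h1 h2 h3
      simp only [Equiv.Perm.mul_apply]
      by_cases huv : u v = v
      · rw [hinvfix u _ huv]
        by_cases htv : t v = v
        · rw [hinvfix t _ htv, huv, htv]
        · have h4 : t⁻¹ v ≠ a := fun e => h2 (by rw [← e]; simp)
          rw [hd _ h4 (hti v htv), app_inv]
      · have h4 : u⁻¹ v ≠ a := fun e => h3 (by rw [← e]; simp)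
        have h5 : t (u⁻¹ v) = u⁻¹ v := hd' _ h4 (hui v huv)
        rw [hinvfix t _ h5, app_inv]
        exact hd' v h1 huv
  rw [← key]
  exact hmem

/-- The relation given by the cycles of length three. -/
def cycRel (G : Subgroup (Equiv.Perm V)) (x y : V) : Prop :=
  x = y ∨ ∃ z, x ≠ y ∧ y ≠ z ∧ x ≠ z ∧ cyc x y z ∈ G

theorem cycRel_symm (h : cycRel G x y) : cycRel G y x := by
  rcases h with h | ⟨z, h1, h2, h3, h4⟩
  · exact Or.inl h.symm
  · refine Or.inr ⟨z, h1.symm, h3, h2, ?_⟩
    have h5 := cyc_inv_mem h4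
    rwa [cyc_rot h2.symm h1.symm h3.symm] at h5

theorem cycRel_trans (hxy : cycRel G x y) (hyz : cycRel G y z) : cycRel G x z := by
  rcases hxy with rfl | ⟨w, h1, h2, h3, h4⟩
  · exact hyz
  rcases hyz with rfl | ⟨v, k1, k2, k3, k4⟩
  · exact Or.inr ⟨w, h1, h2, h3, h4⟩
  by_cases e : x = z
  · exact Or.inl e
  -- from the cycle x y z one gets the claim
  have aux : cyc x y z ∈ G → cycRel G x z := fun h5 => by
    refine Or.inr ⟨y, e, k1.symm, h1, ?_⟩
    have h6 := cyc_inv_mem h5
    rwa [cyc_rot k1.symm h1.symm (Ne.symm e), cyc_rot h1.symm e k1] at h6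
  by_cases e1 : w = z
  · rw [e1] at h4; exact aux h4
  by_cases e2 : v = x
  · rw [e2] at k4
    apply aux
    rwa [cyc_rot h1 k1 e]
  by_cases e3 : v = w
  · rw [e3] at k4 k2 k3
    refine Or.inr ⟨y, e, k1.symm, h1, ?_⟩
    exact cyc_conj_mem k4 h4 (cyc_other h1 e h3) (cyc_zero k1 k3) cyc_two
  · refine Or.inr ⟨w, e, Ne.symm e1, h3, ?_⟩
    exact cyc_conj_mem k4 h4 (cyc_other h1 e (Ne.symm e2)) (cyc_zero k1 k3)
      (cyc_other h2.symm e1 (Ne.symm e3))

theorem cycRel_smul {g : Equiv.Perm V} (hg : g ∈ G) (h : cycRel G x y) :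
    cycRel G (g x) (g y) := by
  rcases h with h | ⟨z, h1, h2, h3, h4⟩
  · exact Or.inl (by rw [h])
  · exact Or.inr ⟨g z, fun e => h1 (g.injective e), fun e => h2 (g.injective e),
      fun e => h3 (g.injective e), cyc_conj_mem hg h4 rfl rfl rfl⟩

/-- Point stabilisers are transitive if every pair of points is on a cycle. -/
theorem stab_trans [Infinite V] (hall : ∀ x y, cycRel G x y) (hy : y ≠ x) (hz : z ≠ x) :
    ∃ g ∈ G, g x = x ∧ g y = z := by
  by_cases hyz : y = z
  · exact ⟨1, one_mem _, rfl, hyz⟩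
  obtain h | ⟨w, h1, h2, h3, h4⟩ := hall y z
  · exact absurd h hyz
  by_cases hw : w = x
  · rw [hw] at h4 h2 h3
    obtain ⟨u, hu⟩ := Set.Infinite.exists_notMem_finite (Set.infinite_univ (α := V))
      (Set.toFinite ({x, y, z} : Set V))
    have hu' := hu.2
    simp only [Set.mem_insert_iff, Set.mem_singleton_iff, not_or] at hu'
    obtain ⟨ux, uy, uz⟩ := hu'
    obtain h | ⟨v, k1, k2, k3, k4⟩ := hall x u
    · exact absurd h.symm ux
    by_cases e1 : v = y
    · rw [e1] at k4 k2 k3
      have k5 := cyc_inv_mem k4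
      -- y -> u -> x -> y
      have h5 : cyc u z y ∈ G :=
        cyc_conj_mem k5 h4 (cyc_zero k2.symm k3.symm) (cyc_other h1.symm (Ne.symm uz) hz) cyc_two
      have h6 := cyc_inv_mem h5
      exact ⟨_, h6, cyc_other h3.symm h2.symm k1, cyc_zero h1 (Ne.symm uy)⟩
    by_cases e2 : v = z
    · rw [e2] at k4 k2 k3
      have k5 := cyc_inv_mem k4
      -- z -> u -> x -> z
      have h5 : cyc y u z ∈ G :=
        cyc_conj_mem k5 h4 (cyc_other h1 (Ne.symm uy) hy) (cyc_zero k2.symm k3.symm) cyc_two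
      have h6 := cyc_inv_mem h5
      exact ⟨_, h6, cyc_other h2.symm k1 h3.symm, cyc_two⟩
    · have h5 : cyc y z u ∈ G :=
        cyc_conj_mem k4 h4 (cyc_other hy (Ne.symm uy) (Ne.symm e1))
          (cyc_other hz (Ne.symm uz) (Ne.symm e2)) (cyc_zero k1 k3)
      exact ⟨_, h5, cyc_other h3.symm h2.symm k1, cyc_zero h1 (Ne.symm uy)⟩
  · exact ⟨_, h4, cyc_other hy.symm hz.symm (Ne.symm hw), cyc_zero h1 h3⟩

/-- Jordan and Wielandt: an infinite primitive group with a regular subgroup and a non-identity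
permutation of finite support is doubly transitive. -/
theorem two_transitive_of_finitary [Infinite V] (hprim : IsPrim G) (hX : X ≤ G)
    (hreg : ∀ x y : V, ∃! g : X, (g : Equiv.Perm V) x = y)
    {t : Equiv.Perm V} (ht : t ∈ G) (h1 : t ≠ 1) (hfin : {x | t x ≠ x}.Finite)
    {x y x' y' : V} (hxy : x ≠ y) (hxy' : x' ≠ y') : ∃ g ∈ G, g x = x' ∧ g y = y' := by
  classical
  -- a point moved by `t`
  obtain ⟨a, ha⟩ : ∃ a, t a ≠ a := by
    by_contra hcon
    push Not at hcon
    exact h1 (Equiv.ext hcon)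
  obtain ⟨h, hh, hha, hsep⟩ := exists_separating (G := G) a (hfin.toFinset.erase a)
    (by simp) (fun b hb => no_finite_suborbit hprim hX hreg ht h1 hfin a b (Ne.symm hb))
  have hu : h * t * h⁻¹ ∈ G := mul_mem (mul_mem hh ht) (inv_mem hh)
  have hia : h⁻¹ a = a := by
    conv_lhs => rw [← hha]
    simp
  obtain ⟨c1, c2, c3, c4⟩ := exists_cyc (a := a) ht hu ha
    (by
      simp only [Equiv.Perm.mul_apply]
      rw [hia]
      intro e
      exact ha (h.injective (by rw [e, hha])))
    (by
      intro v hv htv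
      simp only [Equiv.Perm.mul_apply]
      by_contra hcon
      have h2 : t (h⁻¹ v) ≠ h⁻¹ v := fun e => hcon (by rw [e]; simp)
      have h3 : h⁻¹ v ∈ hfin.toFinset.erase a := by
        rw [Finset.mem_erase]
        exact ⟨fun e => hv (by rw [← hha, ← e]; simp), by simpa using h2⟩
      have h4 := hsep _ h3
      apply h4
      rw [Finset.mem_erase]
      exact ⟨by simpa using hv, by simpa using htv⟩)
  have hall : ∀ x y, cycRel G x y := by
    rcases hprim (cycRel G) ⟨fun x => Or.inl rfl, fun h => cycRel_symm h,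
      fun h1 h2 => cycRel_trans h1 h2⟩ (fun g hg x y h => cycRel_smul hg h) with h | h
    · exact absurd (h _ _ (Or.inr ⟨_, c1, c2, c3, c4⟩)) c1
    · exact h
  obtain ⟨k, hk1, -⟩ := hreg x x'
  have hky : (k : Equiv.Perm V) y ≠ x' := fun e => hxy ((k : Equiv.Perm V).injective
    (by rw [hk1, e]))
  obtain ⟨g, hg, hg1, hg2⟩ := stab_trans hall hky hxy'.symm
  exact ⟨g * k, mul_mem hg (hX k.2), by rw [Equiv.Perm.mul_apply, hk1, hg1],
    by rw [Equiv.Perm.mul_apply, hg2]⟩

end cycles

end Pool.Agent.BG
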